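import Mathlib

/-!
Helper file (helper606) for MP_2870db_co: proper colourings with prescribed class sizes.
Classes of a colouring restricted to a finite vertex set, movable vertices, accessible classes and
the shifting lemma.
-/

namespace Pool.Agent.R606.HS

open Finset Classical

variable {V : Type*} {ι : Type*}

/-- the neighbours of `v` inside `X` -/
noncomputable def nb (G : SimpleGraph V) (X : Finset V) (v : V) : Finset V :=
  X.filter (fun w => G.Adj v w)

/-- the colour class `i` inside `X` -/
noncomputable def cls (X : Finset V) (c : V → ι) (i : ι) : Finset V :=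
  X.filter (fun v => c v = i)

/-- `c` colours `X` properly with colours from `I` -/
def Good (G : SimpleGraph V) (X : Finset V) (I : Finset ι) (c : V → ι) : Prop :=
  (∀ v ∈ X, c v ∈ I) ∧ ∀ v ∈ X, ∀ w ∈ X, G.Adj v w → c v ≠ c w

/-- `v` has no neighbour of colour `j` in `X` -/
def Mv (G : SimpleGraph V) (X : Finset V) (c : V → ι) (v : V) (j : ι) : Prop :=
  ∀ w ∈ X, G.Adj v w → c w ≠ j

theorem mem_nb {G : SimpleGraph V} {X : Finset V} {v w : V} :
    w ∈ nb G X v ↔ w ∈ X ∧ G.Adj v w := by simp [nb]

theorem mem_cls {X : Finset V} {c : V → ι} {i : ι} {v : V} :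
    v ∈ cls X c i ↔ v ∈ X ∧ c v = i := by simp [cls]

theorem card_cls (X : Finset V) (c : V → ι) (i : ι) :
    (cls X c i).card = ∑ v ∈ X, (if c v = i then 1 else 0) := by
  simp [cls]

/-- recolouring one vertex -/
theorem card_cls_update (X : Finset V) (c : V → ι) (y : V) (hy : y ∈ X) (j k : ι) :
    (cls X (Function.update c y j) k).card + (if k = c y then 1 else 0)
      = (cls X c k).card + (if k = j then 1 else 0) := by
  rw [card_cls, card_cls, ← Finset.add_sum_erase X _ hy,
    ← Finset.add_sum_erase X (fun v => if c v = k then 1 else 0) hy]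
  have h : ∑ x ∈ X.erase y, (if (Function.update c y j) x = k then 1 else 0)
      = ∑ x ∈ X.erase y, (if c x = k then 1 else 0) := by
    refine Finset.sum_congr rfl (fun x hx => ?_)
    rw [Function.update_of_ne (Finset.ne_of_mem_erase hx)]
  rw [h]
  simp only [Function.update_self]
  have a1 : (if k = c y then 1 else 0) = (if c y = k then 1 else 0) := by
    simp only [eq_comm]
  have a2 : (if k = j then 1 else 0) = (if j = k then 1 else 0) := by
    simp only [eq_comm]
  rw [a1, a2]
  omega

/-- a proper colouring stays proper when a movable vertex is moved -/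
theorem Good.update {G : SimpleGraph V} {X : Finset V} {I : Finset ι} {c : V → ι}
    (h : Good G X I c) {y : V} {j : ι} (hj : j ∈ I) (hm : Mv G X c y j) :
    Good G X I (Function.update c y j) := by
  refine ⟨fun v hv => ?_, fun v hv w hw hvw => ?_⟩
  · by_cases e : v = y
    · subst e; simpa using hj
    · rw [Function.update_of_ne e]; exact h.1 v hv
  · by_cases e : v = y
    · subst e
      have hne : w ≠ v := hvw.ne'
      rw [Function.update_self, Function.update_of_ne hne]
      exact (hm w hw hvw).symm
    · by_cases e' : w = y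
      · subst e'
        rw [Function.update_self, Function.update_of_ne e]
        exact hm v hv hvw.symm
      · rw [Function.update_of_ne e, Function.update_of_ne e']
        exact h.2 v hv w hw hvw

/-- the class `i` reaches the class `p` in `n` steps of the digraph of movable vertices, while
avoiding the classes in `U` -/
inductive Rc (G : SimpleGraph V) (X : Finset V) (I : Finset ι) (c : V → ι) (p : ι) (U : Set ι) :
    ℕ → ι → Prop
  | base : p ∉ U → Rc G X I c p U 0 p
  | step {n : ℕ} {i j : ι} : Rc G X I c p U n j → i ∈ I → i ∉ U →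
      (∃ y ∈ X, c y = i ∧ Mv G X c y j) → Rc G X I c p U (n + 1) i

/-- reachability avoiding `U` -/
def Re (G : SimpleGraph V) (X : Finset V) (I : Finset ι) (c : V → ι) (p : ι) (U : Set ι)
    (i : ι) : Prop := ∃ n, Rc G X I c p U n i

/-- the rank of a class: the least number of steps -/
noncomputable def rk (G : SimpleGraph V) (X : Finset V) (I : Finset ι) (c : V → ι) (p : ι)
    (U : Set ι) (i : ι) : ℕ := sInf {n | Rc G X I c p U n i}

section reach

variable {G : SimpleGraph V} {X : Finset V} {I : Finset ι} {c : V → ι} {p : ι} {U : Set ι}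

theorem Rc.mem (hp : p ∈ I) {n : ℕ} {i : ι} (h : Rc G X I c p U n i) : i ∈ I := by
  cases h with
  | base _ => exact hp
  | step _ hi _ _ => exact hi

theorem Rc.nmem {n : ℕ} {i : ι} (h : Rc G X I c p U n i) : i ∉ U := by
  cases h with
  | base h => exact h
  | step _ _ h _ => exact h

theorem Re.mem (hp : p ∈ I) {i : ι} (h : Re G X I c p U i) : i ∈ I := by
  obtain ⟨n, hn⟩ := h; exact hn.mem hp

theorem Re.nmem {i : ι} (h : Re G X I c p U i) : i ∉ U := by
  obtain ⟨n, hn⟩ := h; exact hn.nmem

theorem Re.step {i j : ι} (h : Re G X I c p U j) (hi : i ∈ I) (hU : i ∉ U)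
    (hm : ∃ y ∈ X, c y = i ∧ Mv G X c y j) : Re G X I c p U i := by
  obtain ⟨n, hn⟩ := h
  exact ⟨n + 1, Rc.step hn hi hU hm⟩

theorem Rc.mono {U' : Set ι} (hU : U' ⊆ U) {n : ℕ} {i : ι} (h : Rc G X I c p U n i) :
    Rc G X I c p U' n i := by
  induction h with
  | base h => exact Rc.base (fun h' => h (hU h'))
  | step _ hi hn hm ih => exact Rc.step ih hi (fun h' => hn (hU h')) hm

theorem Re.mono {U' : Set ι} (hU : U' ⊆ U) {i : ι} (h : Re G X I c p U i) :
    Re G X I c p U' i := by
  obtain ⟨n, hn⟩ := h; exact ⟨n, hn.mono hU⟩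

theorem rk_spec {i : ι} (h : Re G X I c p U i) : Rc G X I c p U (rk G X I c p U i) i :=
  Nat.sInf_mem (s := {n | Rc G X I c p U n i}) h

theorem rk_le {i : ι} {n : ℕ} (h : Rc G X I c p U n i) : rk G X I c p U i ≤ n :=
  Nat.sInf_le h

theorem rk_step {i : ι} (h : Re G X I c p U i) (hip : i ≠ p) :
    ∃ j, Re G X I c p U j ∧ rk G X I c p U j < rk G X I c p U i ∧
      ∃ y ∈ X, c y = i ∧ Mv G X c y j := by
  have h1 := rk_spec h
  generalize hN : rk G X I c p U i = N at h1
  cases h1 with
  | base _ => exact absurd rfl hip
  | step hj hi hU hm =>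
    rename_i n j
    exact ⟨j, ⟨n, hj⟩, lt_of_le_of_lt (rk_le hj) (Nat.lt_succ_self n), hm⟩

/-- shifting along a shortest path from the class `i` to the class `p` -/
theorem shift (hG : Good G X I c) (hp : p ∈ I) :
    ∀ N i, Re G X I c p U i → rk G X I c p U i ≤ N →
      ∃ c' : V → ι, Good G X I c' ∧
        (∀ v, c' v ≠ c v → v ∈ X ∧ Re G X I c p U (c v) ∧ Re G X I c p U (c' v) ∧
          rk G X I c p U (c' v) < rk G X I c p U (c v) ∧
          rk G X I c p U (c v) ≤ rk G X I c p U i) ∧
        ∀ k, (cls X c' k).card + (if k = i then 1 else 0)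
          = (cls X c k).card + (if k = p then 1 else 0) := by
  intro N
  induction N with
  | zero =>
    intro i hi hN
    have : i = p := by
      by_contra hne
      obtain ⟨j, -, hlt, -⟩ := rk_step hi hne
      omega
    subst this
    exact ⟨c, hG, fun v hv => absurd rfl hv, fun k => rfl⟩
  | succ N ih =>
    intro i hi hN
    by_cases hip : i = p
    · subst hip
      exact ⟨c, hG, fun v hv => absurd rfl hv, fun k => rfl⟩
    · obtain ⟨j, hj, hlt, y, hyX, hyi, hym⟩ := rk_step hi hip
      obtain ⟨c1, hG1, hch, hsz⟩ := ih j hj (by omega)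
      have hy1 : c1 y = c y := by
        by_contra hne
        obtain ⟨-, -, -, -, h5⟩ := hch y hne
        rw [hyi] at h5
        omega
      have hm1 : Mv G X c1 y j := by
        intro w hw hadj hcw
        by_cases hwc : c1 w = c w
        · exact hym w hw hadj (hwc ▸ hcw)
        · obtain ⟨-, -, -, h4, h5⟩ := hch w hwc
          rw [hcw] at h4
          omega
      refine ⟨Function.update c1 y j, hG1.update (hj.mem hp) hm1, ?_, ?_⟩
      · intro v hv
        by_cases hvy : v = y
        · subst hvy
          rw [Function.update_self] at hv ⊢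
          rw [hyi]
          exact ⟨hyX, hi, hj, hlt, le_refl _⟩
        · rw [Function.update_of_ne hvy] at hv ⊢
          obtain ⟨h1, h2, h3, h4, h5⟩ := hch v hv
          exact ⟨h1, h2, h3, h4, h5.trans hlt.le⟩
      · intro k
        have e1 := card_cls_update X c1 y hyX j k
        have e2 := hsz k
        rw [hy1, hyi] at e1
        omega

end reach

end Pool.Agent.R606.HS
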