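import Pool.Agent.R606.HS.Basic

/-!
Helper file (helper606) for MP_2870db_co: terminal classes and the counting lemmas of
Kierstead and Kostochka, with prescribed class sizes.
-/

namespace Pool.Agent.R606.HS

open Finset Classical

variable {V : Type*} {ι : Type*}

/-- neighbours of `y` in the class `j` -/
noncomputable def nc (G : SimpleGraph V) (X : Finset V) (c : V → ι) (y : V) (j : ι) : Finset V :=
  X.filter (fun w => G.Adj y w ∧ c w = j)

/-- vertices whose colour is not in `C` -/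
noncomputable def out (X : Finset V) (c : V → ι) (C : Finset ι) : Finset V :=
  X.filter (fun w => c w ∉ C)

theorem mem_nc {G : SimpleGraph V} {X : Finset V} {c : V → ι} {y w : V} {j : ι} :
    w ∈ nc G X c y j ↔ w ∈ X ∧ G.Adj y w ∧ c w = j := by simp [nc]

theorem mem_out {X : Finset V} {c : V → ι} {C : Finset ι} {w : V} :
    w ∈ out X c C ↔ w ∈ X ∧ c w ∉ C := by simp [out]

theorem deg_split (G : SimpleGraph V) (X : Finset V) (c : V → ι) (C : Finset ι) (y : V) :
    ∑ j ∈ C, (nc G X c y j).card + (nb G (out X c C) y).card = (nb G X y).card := by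
  rw [← Finset.card_filter_add_card_filter_not (s := nb G X y) (fun w => c w ∈ C)]
  congr 1
  · rw [Finset.card_eq_sum_card_fiberwise (s := (nb G X y).filter (fun w => c w ∈ C)) (t := C)
      (f := c)]
    · refine Finset.sum_congr rfl (fun j hj => ?_)
      congr 1
      ext w
      simp only [mem_nc, Finset.mem_filter, mem_nb]
      constructor
      · rintro ⟨h1, h2, h3⟩; exact ⟨⟨⟨h1, h2⟩, h3 ▸ hj⟩, h3⟩
      · rintro ⟨⟨⟨h1, h2⟩, -⟩, h3⟩; exact ⟨h1, h2, h3⟩
    · intro w hw
      simp only [Finset.coe_filter, Set.mem_setOf_eq] at hw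
      exact hw.2
  · congr 1
    ext w
    simp only [mem_nb, mem_out, Finset.mem_filter]
    tauto

theorem card_split (X : Finset V) (c : V → ι) (C : Finset ι) :
    ∑ j ∈ C, (cls X c j).card + (out X c C).card = X.card := by
  rw [← Finset.card_filter_add_card_filter_not (s := X) (fun w => c w ∈ C)]
  congr 1
  rw [Finset.card_eq_sum_card_fiberwise (s := X.filter (fun w => c w ∈ C)) (t := C) (f := c)]
  · refine Finset.sum_congr rfl (fun j hj => ?_)
    congr 1
    ext w
    simp only [mem_cls, Finset.mem_filter]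
    constructor
    · rintro ⟨h1, h3⟩; exact ⟨⟨h1, h3 ▸ hj⟩, h3⟩
    · rintro ⟨⟨h1, -⟩, h3⟩; exact ⟨h1, h3⟩
  · intro w hw
    simp only [Finset.coe_filter, Set.mem_setOf_eq] at hw
    exact hw.2

theorem nc_pos {G : SimpleGraph V} {X : Finset V} {c : V → ι} {y : V} {j : ι}
    (h : ¬ Mv G X c y j) : 1 ≤ (nc G X c y j).card := by
  rw [Nat.one_le_iff_ne_zero, ← Nat.pos_iff_ne_zero, Finset.card_pos]
  simp only [Mv, not_forall, not_not] at h
  obtain ⟨w, hw, h1, h2⟩ := h
  exact ⟨w, mem_nc.2 ⟨hw, h1, h2⟩⟩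

theorem deg_bound {G : SimpleGraph V} {X : Finset V} {c : V → ι} {A C : Finset ι} {y : V}
    (hCA : C ⊆ A) (h : ∀ j ∈ C, ¬ Mv G X c y j) :
    C.card + (nb G (out X c A) y).card ≤ (nb G X y).card := by
  rw [← deg_split G X c A y]
  have h1 : C.card ≤ ∑ j ∈ C, (nc G X c y j).card := by
    rw [Finset.card_eq_sum_ones]
    exact Finset.sum_le_sum (fun j hj => nc_pos (h j hj))
  have h2 : ∑ j ∈ C, (nc G X c y j).card ≤ ∑ j ∈ A, (nc G X c y j).card :=
    Finset.sum_le_sum_of_subset hCA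
  omega

/-- `z` is the only neighbour of `y` in the class of `z` -/
def Solo (G : SimpleGraph V) (X : Finset V) (c : V → ι) (z y : V) : Prop :=
  G.Adj y z ∧ ∀ w ∈ X, G.Adj y w → c w = c z → w = z

/-- the accessible classes -/
noncomputable def acc (G : SimpleGraph V) (X : Finset V) (I : Finset ι) (c : V → ι) (p : ι) :
    Finset ι := I.filter (fun i => Re G X I c p ∅ i)

theorem mem_acc {G : SimpleGraph V} {X : Finset V} {I : Finset ι} {c : V → ι} {p i : ι}
    (hp : p ∈ I) : i ∈ acc G X I c p ↔ Re G X I c p ∅ i := by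
  simp only [acc, Finset.mem_filter]
  exact ⟨fun h => h.2, fun h => ⟨h.mem hp, h⟩⟩

/-- the family of terminal classes -/
theorem exists_T {G : SimpleGraph V} {X : Finset V} {I : Finset ι} {c : V → ι} {p : ι}
    (hp : p ∈ I) (h2 : ∃ i ∈ acc G X I c p, i ≠ p) :
    ∃ U ∈ acc G X I c p, ∃ T : Finset ι, T.Nonempty ∧ T ⊆ acc G X I c p ∧ U ∉ T ∧ p ∉ T ∧
      (∀ W ∈ T, ∀ j ∈ acc G X I c p, j ≠ W → Re G X I c p {W} j) ∧
      (∀ W ∈ T, ∀ j ∈ acc G X I c p, j ≠ U → j ∉ T → ∀ x ∈ X, c x = W → ¬ Mv G X c x j) := by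
  set A := acc G X I c p with hA
  let TT : ι → Finset ι := fun U => A.filter (fun i => i ≠ U ∧ ¬ Re G X I c p {U} i)
  have memTT : ∀ U i, i ∈ TT U ↔ i ∈ A ∧ i ≠ U ∧ ¬ Re G X I c p {U} i := by
    intro U i; simp [TT]
  have hpA : p ∈ A := by
    rw [hA, mem_acc hp]; exact ⟨0, Rc.base (by simp)⟩
  have hpp : ∀ n i, ¬ Rc G X I c p {p} n i := by
    intro n i h
    induction h with
    | base h => exact h rfl
    | step _ _ _ _ ih => exact ih
  have hne : (A.filter (fun U => (TT U).Nonempty)).Nonempty := by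
    obtain ⟨i, hi, hip⟩ := h2
    refine ⟨p, Finset.mem_filter.2 ⟨hpA, i, ?_⟩⟩
    rw [memTT]
    exact ⟨hi, hip, fun ⟨n, hn⟩ => hpp n i hn⟩
  obtain ⟨U, hU, hmin⟩ := Finset.exists_min_image _ (fun U => (TT U).card) hne
  rw [Finset.mem_filter] at hU
  have hpT : ∀ U, p ∉ TT U := by
    intro U h
    rw [memTT] at h
    exact h.2.2 ⟨0, Rc.base (fun h' => h.2.1 h')⟩
  refine ⟨U, hU.1, TT U, hU.2, fun i hi => ((memTT U i).1 hi).1,
    fun h => ((memTT U U).1 h).2.1 rfl, hpT U, ?_, ?_⟩
  · intro W hW j hj hjW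
    have hW' := (memTT U W).1 hW
    -- Claim A
    have hA1 : ∀ n i, Rc G X I c p {U} n i → Re G X I c p {W} i := by
      intro n i h
      induction h with
      | base h =>
        refine ⟨0, Rc.base (fun h' => ?_)⟩
        rw [Set.mem_singleton_iff] at h'
        exact hpT U (h' ▸ hW)
      | step hj hi hn hm ih =>
        refine ih.step hi (fun h' => ?_) hm
        rw [Set.mem_singleton_iff] at h'
        subst h'
        exact hW'.2.2 ⟨_, Rc.step hj hi hn hm⟩
    -- Claim B
    have hB1 : ∀ N i, Re G X I c p ∅ i → rk G X I c p ∅ i ≤ N →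
        rk G X I c p ∅ i < rk G X I c p ∅ U → Re G X I c p {U} i := by
      intro N
      induction N with
      | zero =>
        intro i hi h0 hlt
        have hiU : i ≠ U := by rintro rfl; exact lt_irrefl _ hlt
        have : i = p := by
          by_contra hne
          obtain ⟨j, -, hlt, -⟩ := rk_step hi hne
          omega
        subst this
        exact ⟨0, Rc.base (fun h' => hiU h')⟩
      | succ N ih =>
        intro i hi h0 hlt
        have hiU : i ≠ U := by rintro rfl; exact lt_irrefl _ hlt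
        by_cases hip : i = p
        · subst hip
          exact ⟨0, Rc.base (fun h' => hiU h')⟩
        · obtain ⟨j, hj, hjlt, hm⟩ := rk_step hi hip
          exact (ih j hj (by omega) (by omega)).step (hi.mem hp) (fun h' => hiU h') hm
    have hUW : Re G X I c p {W} U := by
      by_cases hUp : U = p
      · rw [hUp]
        refine ⟨0, Rc.base (fun h' => ?_)⟩
        rw [Set.mem_singleton_iff] at h'
        exact hpT U (h' ▸ hW)
      · have hUr := (mem_acc hp).1 hU.1
        obtain ⟨j, hj, hjlt, hm⟩ := rk_step hUr hUp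
        obtain ⟨n, hn⟩ := hB1 _ j hj le_rfl hjlt
        exact (hA1 n j hn).step (hUr.mem hp) (fun h' => hW'.2.1 h'.symm) hm
    by_contra hcon
    have hjT : j ∈ TT W := (memTT W j).2 ⟨hj, hjW, hcon⟩
    have hWA : W ∈ A.filter (fun U => (TT U).Nonempty) :=
      Finset.mem_filter.2 ⟨hW'.1, j, hjT⟩
    have hle := hmin W hWA
    have hss : TT W ⊂ TT U := by
      rw [Finset.ssubset_iff_subset_ne]
      refine ⟨?_, ?_⟩
      · intro i hi
        rw [memTT] at hi ⊢
        refine ⟨hi.1, ?_, ?_⟩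
        · rintro rfl; exact hi.2.2 hUW
        · rintro ⟨n, hn⟩; exact hi.2.2 (hA1 n i hn)
      · intro heq
        rw [← heq, memTT] at hW
        exact hW.2.1 rfl
    have := Finset.card_lt_card hss
    omega
  · intro W hW j hj hjU hjT x hx hxW hm
    have hW' := (memTT U W).1 hW
    have hjr : Re G X I c p {U} j := by
      by_contra hcon
      exact hjT ((memTT U j).2 ⟨hj, hjU, hcon⟩)
    exact hW'.2.2 (hjr.step (((mem_acc hp).1 hW'.1).mem hp) (fun h' => hW'.2.1 h')
      ⟨x, hx, hxW, hm⟩)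

/-- Lemma 2.2 of Kierstead-Kostochka -/
theorem many_terminal {G : SimpleGraph V} {X : Finset V} {c : V → ι} {A T : Finset ι}
    {U W : ι} {r s q : ℕ} (hdeg : ∀ v ∈ X, (nb G X v).card ≤ r) (hq : q + A.card = r + 1)
    (hUA : U ∈ A) (hTA : T ⊆ A) (hUT : U ∉ T) (hWT : W ∈ T)
    (hWs : (cls X c W).card ≤ s) (hB : q * s + 1 ≤ (out X c A).card)
    (hy : ∀ y ∈ out X c A, ∀ j ∈ A, ¬ Mv G X c y j)
    (hx : ∀ j ∈ A, j ≠ U → j ∉ T → ∀ x ∈ X, c x = W → ¬ Mv G X c x j)
    (hno : ∀ z ∈ X, c z = W → (∃ y ∈ out X c A, Solo G X c z y) →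
      ∀ j ∈ A, j ≠ W → ¬ Mv G X c z j) : q + 1 ≤ T.card := by
  by_contra hcon
  have hTq : T.card ≤ q := by omega
  set B := out X c A with hBdef
  let wt : V → ℕ := fun z => if (∃ y ∈ B, Solo G X c z y) then 2 else 1
  have hwt1 : ∀ z, 1 ≤ wt z := by intro z; simp only [wt]; split_ifs <;> omega
  -- lower bound
  have hlow : ∀ y ∈ B, 2 ≤ ∑ z ∈ cls X c W, (if G.Adj y z then wt z else 0) := by
    intro y hyB
    rw [← Finset.sum_filter]
    have h1 := hy y hyB W (hTA hWT)
    simp only [Mv, not_forall, not_not] at h1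
    obtain ⟨z0, hz0, hadj, hcz⟩ := h1
    have hz0m : z0 ∈ (cls X c W).filter (fun z => G.Adj y z) :=
      Finset.mem_filter.2 ⟨mem_cls.2 ⟨hz0, hcz⟩, hadj⟩
    by_cases hs : ∃ y' ∈ B, Solo G X c z0 y'
    · have : wt z0 = 2 := by simp only [wt]; rw [if_pos hs]
      calc 2 = wt z0 := this.symm
        _ ≤ _ := Finset.single_le_sum (f := wt) (fun i _ => Nat.zero_le _) hz0m
    · have hns : ¬ Solo G X c z0 y := fun h => hs ⟨y, hyB, h⟩
      have : ∃ w ∈ X, G.Adj y w ∧ c w = c z0 ∧ w ≠ z0 := by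
        by_contra hall
        push Not at hall
        exact hns ⟨hadj, fun w hw h1 h2 => hall w hw h1 h2⟩
      obtain ⟨w, hw, hwa, hwc, hwz⟩ := this
      have hwm : w ∈ (cls X c W).filter (fun z => G.Adj y z) :=
        Finset.mem_filter.2 ⟨mem_cls.2 ⟨hw, hwc.trans hcz⟩, hwa⟩
      have h2 : 1 < ((cls X c W).filter (fun z => G.Adj y z)).card :=
        Finset.one_lt_card.2 ⟨w, hwm, z0, hz0m, hwz⟩
      calc 2 ≤ ((cls X c W).filter (fun z => G.Adj y z)).card := h2
        _ = ∑ z ∈ (cls X c W).filter (fun z => G.Adj y z), 1 := by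
            rw [Finset.card_eq_sum_ones]
        _ ≤ _ := Finset.sum_le_sum (fun z _ => hwt1 z)
  have hsum1 : 2 * B.card ≤ ∑ y ∈ B, ∑ z ∈ cls X c W, (if G.Adj y z then wt z else 0) := by
    calc 2 * B.card = ∑ y ∈ B, 2 := by simp [mul_comm]
      _ ≤ _ := Finset.sum_le_sum hlow
  rw [Finset.sum_comm] at hsum1
  -- upper bound
  have hup : ∀ z ∈ cls X c W, ∑ y ∈ B, (if G.Adj y z then wt z else 0) ≤ 2 * q := by
    intro z hz
    rw [mem_cls] at hz
    have e1 : ∑ y ∈ B, (if G.Adj y z then wt z else 0) = (nb G B z).card * wt z := by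
      rw [← Finset.sum_filter, Finset.sum_const, smul_eq_mul]
      congr 2
      ext y
      simp [nb, G.adj_comm]
    rw [e1]
    by_cases hs : ∃ y' ∈ B, Solo G X c z y'
    · have hw2 : wt z = 2 := by simp only [wt]; rw [if_pos hs]
      have h1 := deg_bound (G := G) (X := X) (c := c) (A := A) (C := A.erase W) (y := z)
        (Finset.erase_subset _ _)
        (fun j hj => hno z hz.1 hz.2 hs j (Finset.mem_of_mem_erase hj)
          (Finset.ne_of_mem_erase hj))
      have h2 := hdeg z hz.1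
      rw [Finset.card_erase_of_mem (hTA hWT)] at h1
      have h3 : 1 ≤ A.card := Finset.card_pos.2 ⟨_, hTA hWT⟩
      rw [hw2]
      have h4 : (nb G B z).card ≤ q := by rw [hBdef]; omega
      omega
    · have hw1 : wt z = 1 := by simp only [wt]; rw [if_neg hs]
      have h1 := deg_bound (G := G) (X := X) (c := c) (A := A) (C := (A \ T).erase U) (y := z)
        ((Finset.erase_subset _ _).trans Finset.sdiff_subset)
        (fun j hj => by
          have hj1 := Finset.mem_sdiff.1 (Finset.mem_of_mem_erase hj)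
          exact hx j hj1.1 (Finset.ne_of_mem_erase hj) hj1.2 z hz.1 hz.2)
      have h2 := hdeg z hz.1
      rw [Finset.card_erase_of_mem (Finset.mem_sdiff.2 ⟨hUA, hUT⟩),
        Finset.card_sdiff_of_subset hTA] at h1
      have h3 : T.card < A.card := Finset.card_lt_card
        ((Finset.ssubset_iff_of_subset hTA).2 ⟨U, hUA, hUT⟩)
      rw [hw1]
      have h4 : (nb G B z).card ≤ q + T.card := by rw [hBdef]; omega
      omega
  have hsum2 : ∑ z ∈ cls X c W, ∑ y ∈ B, (if G.Adj y z then wt z else 0)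
      ≤ (cls X c W).card * (2 * q) := by
    have := Finset.sum_le_card_nsmul (cls X c W) _ (2 * q) hup
    simpa using this
  have h5 : (cls X c W).card * (2 * q) ≤ s * (2 * q) := Nat.mul_le_mul_right _ hWs
  have h6 : 2 * (q * s + 1) ≤ s * (2 * q) := by
    calc 2 * (q * s + 1) ≤ 2 * B.card := Nat.mul_le_mul_left _ hB
      _ ≤ _ := hsum1
      _ ≤ _ := hsum2
      _ ≤ _ := h5
  nlinarith

end Pool.Agent.R606.HS
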