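import Pool.Agent.R606.HS.Near

/-!
Helper file (helper606) for MP_2870db_co: the main theorem, a Hajnal-Szemeredi theorem with
prescribed class sizes.
-/

namespace Pool.Agent.R606.HS

open Finset Classical

variable {V : Type*} {ι : Type*}

/-- without edges: a function with prescribed fibre sizes -/
theorem exists_sizes [Nonempty ι] (n : ι → ℕ) : ∀ (I : Finset ι) (X : Finset V),
    ∑ i ∈ I, n i = X.card → ∃ c : V → ι, (∀ v ∈ X, c v ∈ I) ∧ ∀ i ∈ I, (cls X c i).card = n i := by
  intro I
  induction I using Finset.induction_on with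
  | empty =>
    intro X hX
    simp only [Finset.sum_empty] at hX
    have : X = ∅ := Finset.card_eq_zero.1 hX.symm
    subst this
    exact ⟨fun _ => Classical.arbitrary ι, by simp, by simp⟩
  | insert i I hi ih =>
    intro X hX
    rw [Finset.sum_insert hi] at hX
    obtain ⟨Y, hYX, hYc⟩ := Finset.exists_subset_card_eq (s := X) (n := n i) (by omega)
    have hc : ∑ j ∈ I, n j = (X \ Y).card := by
      rw [Finset.card_sdiff_of_subset hYX]; omega
    obtain ⟨c, hc1, hc2⟩ := ih (X \ Y) hc
    refine ⟨fun v => if v ∈ Y then i else c v, ?_, ?_⟩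
    · intro v hv
      by_cases h : v ∈ Y
      · simp [h]
      · simp only [h, if_false]
        exact Finset.mem_insert_of_mem (hc1 v (Finset.mem_sdiff.2 ⟨hv, h⟩))
    · intro j hj
      rw [Finset.mem_insert] at hj
      by_cases hji : j = i
      · subst hji
        have : cls X (fun v => if v ∈ Y then j else c v) j = Y := by
          ext v
          rw [mem_cls]
          constructor
          · rintro ⟨hv, hcv⟩
            by_contra h
            simp only [h, if_false] at hcv
            exact hi (hcv ▸ hc1 v (Finset.mem_sdiff.2 ⟨hv, h⟩))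
          · intro h
            exact ⟨hYX h, by simp [h]⟩
        rw [this, hYc]
      · have hjI : j ∈ I := hj.resolve_left hji
        have : cls X (fun v => if v ∈ Y then i else c v) j = cls (X \ Y) c j := by
          ext v
          rw [mem_cls, mem_cls, Finset.mem_sdiff]
          constructor
          · rintro ⟨hv, hcv⟩
            by_cases h : v ∈ Y
            · simp only [h, if_true] at hcv
              exact absurd hcv.symm hji
            · simp only [h, if_false] at hcv
              exact ⟨⟨hv, h⟩, hcv⟩
          · rintro ⟨⟨hv, h⟩, hcv⟩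
            exact ⟨hv, by simp only [h, if_false]; exact hcv⟩
        rw [this, hc2 j hjI]

/-- deleting all edges at `u` -/
def del (G : SimpleGraph V) (u : V) : SimpleGraph V where
  Adj a b := G.Adj a b ∧ a ≠ u ∧ b ≠ u
  symm := ⟨fun _ _ h => ⟨h.1.symm, h.2.2, h.2.1⟩⟩
  loopless := ⟨fun _ h => h.1.ne rfl⟩

theorem main_aux [Nonempty ι] (n : ι → ℕ) (s : ℕ) : ∀ (N : ℕ) (G : SimpleGraph V) (X : Finset V)
    (I : Finset ι) (r : ℕ), ned G X ≤ N → (∀ v ∈ X, (nb G X v).card ≤ r) →
    (r + 1) * s ≤ X.card → (∀ i ∈ I, n i ≤ s) → ∑ i ∈ I, n i = X.card → Col G X I n := by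
  intro N
  induction N with
  | zero =>
    intro G X I r hN hdeg hX hn hsum
    obtain ⟨c, hc1, hc2⟩ := exists_sizes n I X hsum
    refine ⟨c, ⟨hc1, ?_⟩, hc2⟩
    intro v hv w hw hadj
    exfalso
    have h1 : (nb G X v).card ≤ ned G X :=
      Finset.single_le_sum (f := fun v => (nb G X v).card) (fun _ _ => Nat.zero_le _) hv
    have h2 : 0 < (nb G X v).card := Finset.card_pos.2 ⟨w, mem_nb.2 ⟨hw, hadj⟩⟩
    omega
  | succ N ih =>
    intro G X I r hN hdeg hX hn hsum
    by_cases h0 : ∃ u ∈ X, ∃ w ∈ X, G.Adj u w
    · obtain ⟨u, hu, w, hw, hadj⟩ := h0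
      have hsub : ∀ v, nb (del G u) X v ⊆ nb G X v := by
        intro v x hx
        rw [mem_nb] at hx ⊢
        exact ⟨hx.1, hx.2.1⟩
      have hlt : ned (del G u) X < ned G X := by
        refine Finset.sum_lt_sum (fun v _ => Finset.card_le_card (hsub v)) ⟨u, hu, ?_⟩
        have : nb (del G u) X u = ∅ := by
          ext x
          rw [mem_nb]
          simp [del]
        rw [this, Finset.card_empty]
        exact Finset.card_pos.2 ⟨w, mem_nb.2 ⟨hw, hadj⟩⟩
      obtain ⟨c, hc, hsz⟩ := ih (del G u) X I r (by omega)
        (fun v hv => (Finset.card_le_card (hsub v)).trans (hdeg v hv)) hX hn hsum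
      have hGood : ∀ (c' : V → ι), (∀ v ∈ X, c' v ∈ I) → (∀ v, v ≠ u → c' v = c v) →
          (∀ x ∈ X, G.Adj u x → c' u ≠ c' x) → Good G X I c' := by
        intro c' h1 h2 h3
        refine ⟨h1, fun a ha b hb hab => ?_⟩
        by_cases hau : a = u
        · subst hau; exact h3 b hb hab
        · by_cases hbu : b = u
          · subst hbu; exact (h3 a ha hab.symm).symm
          · rw [h2 a hau, h2 b hbu]
            exact hc.2 a ha b hb ⟨hab, hau, hbu⟩
      by_cases hbad : ∃ x ∈ X, G.Adj u x ∧ c x = c u
      · -- sizes
        have hrI : r + 1 ≤ I.card := by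
          have h1 : ∑ i ∈ I, n i ≤ I.card * s := by
            simpa using Finset.sum_le_card_nsmul I n s hn
          have h2 : 0 < X.card := Finset.card_pos.2 ⟨u, hu⟩
          have h3 : (r + 1) * s ≤ I.card * s := by omega
          have h4 : 0 < s := by
            rcases Nat.eq_zero_or_pos s with h | h
            · subst h; omega
            · exact h
          exact Nat.le_of_mul_le_mul_right h3 h4
        obtain ⟨x, hx, hux, hcx⟩ := hbad
        have himg : ((nb G X u).image c).card < I.card := by
          have h1 := Finset.card_image_le (s := nb G X u) (f := c)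
          have h2 := hdeg u hu
          omega
        obtain ⟨j, hj, hjn⟩ := Finset.exists_mem_notMem_of_card_lt_card himg
        have hju : c u ≠ j := by
          rintro rfl
          exact hjn (Finset.mem_image.2 ⟨x, mem_nb.2 ⟨hx, hux⟩, hcx⟩)
        have hG' : Good G X I (Function.update c u j) := by
          refine hGood _ ?_ (fun v hv => Function.update_of_ne hv _ _) ?_
          · intro v hv
            by_cases h : v = u
            · subst h; rw [Function.update_self]; exact hj
            · rw [Function.update_of_ne h]; exact hc.1 v hv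
          · intro y hy huy heq
            rw [Function.update_self, Function.update_of_ne huy.ne'] at heq
            exact hjn (Finset.mem_image.2 ⟨y, mem_nb.2 ⟨hy, huy⟩, heq.symm⟩)
        refine near (s := s) (r := r) ?_ hdeg hX hn hsum hrI I.card
          (Function.update c u j) (c u) j (hc.1 u hu) hj hju hG' ?_ (Nat.le_add_left _ _)
        · intro X' I' r' hlt' h1 h2 h3 h4
          exact ih G X' I' r' (by omega) h1 h2 h3 h4
        · intro k hk
          have e1 := card_cls_update X c u hu j k
          rw [hsz k hk] at e1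
          exact e1
      · push Not at hbad
        exact ⟨c, hGood c hc.1 (fun _ _ => rfl) (fun x hx hux h => hbad x hx hux h.symm), hsz⟩
    · push Not at h0
      obtain ⟨c, hc1, hc2⟩ := exists_sizes n I X hsum
      exact ⟨c, ⟨hc1, fun v hv w hw hadj => absurd hadj (h0 v hv w hw)⟩, hc2⟩

/-- **Main theorem.** A finite graph all of whose degrees are at most `r`, with at least
`(r+1)s` vertices, has a proper colouring with any prescribed class sizes that are at most `s`
and add up to the number of vertices. -/
theorem main [Fintype V] (G : SimpleGraph V) (r s : ℕ)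
    (hdeg : ∀ v, (Finset.univ.filter (fun w => G.Adj v w)).card ≤ r)
    (hV : (r + 1) * s ≤ Fintype.card V) [Fintype ι] (n : ι → ℕ) (hn : ∀ i, n i ≤ s)
    (hsum : ∑ i, n i = Fintype.card V) :
    ∃ c : V → ι, (∀ v w, G.Adj v w → c v ≠ c w) ∧
      ∀ i, (Finset.univ.filter (fun v => c v = i)).card = n i := by
  rcases isEmpty_or_nonempty ι with hι | hι
  · have : Fintype.card V = 0 := by rw [← hsum]; simp
    have hVe : IsEmpty V := Fintype.card_eq_zero_iff.1 this
    exact ⟨fun v => (hVe.false v).elim, fun v => (hVe.false v).elim, fun i => (hι.false i).elim⟩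
  · obtain ⟨c, hc, hsz⟩ := main_aux n s (ned G Finset.univ) G Finset.univ Finset.univ r le_rfl
      (fun v _ => hdeg v) (by simpa using hV) (fun i _ => hn i) (by simpa using hsum)
    exact ⟨c, fun v w h => hc.2 v (Finset.mem_univ _) w (Finset.mem_univ _) h,
      fun i => hsz i (Finset.mem_univ _)⟩

end Pool.Agent.R606.HS
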