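import Pool.Agent.R606.HS.Pair

/-!
Helper file (helper606) for MP_2870db_co: from a nearly correct colouring to a correct one.
-/

namespace Pool.Agent.R606.HS

open Finset Classical

variable {V : Type*} {ι : Type*}

/-- twice the number of edges inside `X` -/
noncomputable def ned (G : SimpleGraph V) (X : Finset V) : ℕ := ∑ v ∈ X, (nb G X v).card

/-- `X` has a proper colouring from `I` with exactly `n i` vertices of colour `i` -/
def Col (G : SimpleGraph V) (X : Finset V) (I : Finset ι) (n : ι → ℕ) : Prop :=
  ∃ c : V → ι, Good G X I c ∧ ∀ i ∈ I, (cls X c i).card = n i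

theorem nb_mono (G : SimpleGraph V) {X Y : Finset V} (h : X ⊆ Y) (v : V) :
    nb G X v ⊆ nb G Y v := Finset.filter_subset_filter _ h

theorem ned_lt (G : SimpleGraph V) {X Y : Finset V} (h : X ⊆ Y) {u w : V} (hu : u ∈ Y)
    (huX : u ∉ X) (hw : w ∈ Y) (ha : G.Adj u w) : ned G X < ned G Y := by
  unfold ned
  have h1 : ∑ v ∈ X, (nb G X v).card ≤ ∑ v ∈ X, (nb G Y v).card :=
    Finset.sum_le_sum (fun v _ => Finset.card_le_card (nb_mono G h v))
  have h2 : ∑ v ∈ X, (nb G Y v).card < ∑ v ∈ Y, (nb G Y v).card := by
    apply Finset.sum_lt_sum_of_subset h hu huX
    · exact Finset.card_pos.2 ⟨w, mem_nb.2 ⟨hw, ha⟩⟩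
    · intro j _ _; exact Nat.zero_le _
  exact lt_of_le_of_lt h1 h2

theorem near {G : SimpleGraph V} {X : Finset V} {I : Finset ι} {n : ι → ℕ} {r s : ℕ}
    (ih : ∀ (X' : Finset V) (I' : Finset ι) (r' : ℕ), ned G X' < ned G X →
      (∀ v ∈ X', (nb G X' v).card ≤ r') → (r' + 1) * s ≤ X'.card → (∀ i ∈ I', n i ≤ s) →
      ∑ i ∈ I', n i = X'.card → Col G X' I' n)
    (hdeg : ∀ v ∈ X, (nb G X v).card ≤ r) (hX : (r + 1) * s ≤ X.card)
    (hn : ∀ i ∈ I, n i ≤ s) (hsum : ∑ i ∈ I, n i = X.card) (hrI : r + 1 ≤ I.card) :
    ∀ (M : ℕ) (c : V → ι) (p e : ι), p ∈ I → e ∈ I → p ≠ e → Good G X I c →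
      (∀ k ∈ I, (cls X c k).card + (if k = p then 1 else 0) = n k + (if k = e then 1 else 0)) →
      I.card ≤ (acc G X I c p).card + M → Col G X I n := by
  intro M
  induction M with
  | zero =>
    intro c p e hp he hpe hG hsz hM
    have hA : acc G X I c p = I :=
      Finset.eq_of_subset_of_card_le (Finset.filter_subset _ _) (by omega)
    have heA : e ∈ acc G X I c p := by rw [hA]; exact he
    obtain ⟨c', hG', -, hs'⟩ := shift hG hp _ e ((mem_acc hp).1 heA) le_rfl
    refine ⟨c', hG', fun k hk => ?_⟩
    have h1 := hs' k
    have h2 := hsz k hk
    omega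
  | succ M ihM =>
    intro c p e hp he hpe hG hsz hM
    by_cases heA : e ∈ acc G X I c p
    · obtain ⟨c', hG', -, hs'⟩ := shift hG hp _ e ((mem_acc hp).1 heA) le_rfl
      refine ⟨c', hG', fun k hk => ?_⟩
      have h1 := hs' k
      have h2 := hsz k hk
      omega
    · set A := acc G X I c p with hAdef
      set B := out X c A with hBdef
      have hAI : A ⊆ I := Finset.filter_subset _ _
      have hpA : p ∈ A := by rw [hAdef, mem_acc hp]; exact ⟨0, Rc.base (by simp)⟩
      have hBX : B ⊆ X := Finset.filter_subset _ _
      have hy : ∀ y ∈ B, ∀ j ∈ A, ¬ Mv G X c y j := by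
        intro y hyB j hj hm
        have hyB' := mem_out.1 hyB
        apply hyB'.2
        rw [hAdef, mem_acc hp]
        exact ((mem_acc hp).1 hj).step (hG.1 y hyB'.1) (by simp) ⟨y, hyB'.1, rfl, hm⟩
      -- sizes
      have hszA : ∀ k ∈ A, (cls X c k).card + (if k = p then 1 else 0) = n k := by
        intro k hk
        have h1 := hsz k (hAI hk)
        have h2 : k ≠ e := by rintro rfl; exact heA hk
        simp only [h2, if_false] at h1
        omega
      have hsumA : ∑ k ∈ A, (cls X c k).card + 1 = ∑ k ∈ A, n k := by
        have h1 : ∑ k ∈ A, ((cls X c k).card + (if k = p then 1 else 0)) = ∑ k ∈ A, n k :=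
          Finset.sum_congr rfl hszA
        rw [Finset.sum_add_distrib] at h1
        simpa [hpA] using h1
      have hsplit := card_split X c A
      rw [← hBdef] at hsplit
      have hnA : ∑ k ∈ A, n k ≤ A.card * s := by
        simpa using Finset.sum_le_card_nsmul A n s (fun k hk => hn k (hAI hk))
      have hsdiff : ∑ k ∈ I \ A, n k + ∑ k ∈ A, n k = ∑ k ∈ I, n k := Finset.sum_sdiff hAI
      have hBsum : ∑ k ∈ I \ A, n k + 1 = B.card := by omega
      have hBcard : (r + 1) * s + 1 ≤ A.card * s + B.card := by omega
      have hBne : ∃ y, y ∈ B := by
        have h1 := hsz e he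
        simp only [hpe.symm, if_false, if_true] at h1
        have h2 : 0 < (cls X c e).card := by omega
        obtain ⟨y, hy1⟩ := Finset.card_pos.1 h2
        rw [mem_cls] at hy1
        exact ⟨y, mem_out.2 ⟨hy1.1, by rw [hy1.2]; exact heA⟩⟩
      have hdB0 : ∀ y ∈ B, A.card + (nb G B y).card ≤ r := by
        intro y hyB
        have h1 := deg_bound (G := G) (X := X) (c := c) (A := A) (C := A) (y := y)
          (Finset.Subset.refl _) (hy y hyB)
        exact h1.trans (hdeg y (hBX hyB))
      obtain ⟨q, hq⟩ : ∃ q, q + A.card = r + 1 := by
        obtain ⟨y, hyB⟩ := hBne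
        have := hdB0 y hyB
        exact ⟨r + 1 - A.card, by omega⟩
      have hq1 : 1 ≤ q := by
        obtain ⟨y, hyB⟩ := hBne
        have := hdB0 y hyB
        omega
      have hB : q * s + 1 ≤ B.card := by
        rw [← hq, add_mul] at hBcard
        omega
      have hdB : ∀ y ∈ B, (nb G B y).card ≤ q - 1 := by
        intro y hyB
        have := hdB0 y hyB
        omega
      -- at least two accessible classes
      have h2 : ∃ i ∈ A, i ≠ p := by
        by_contra hcon
        push Not at hcon
        have hA1 : A = {p} := by
          ext i
          rw [Finset.mem_singleton]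
          exact ⟨hcon i, fun h => h ▸ hpA⟩
        have hqr : q = r := by rw [hA1, Finset.card_singleton] at hq; omega
        have h3 : ∀ y ∈ B, 1 ≤ ∑ z ∈ cls X c p, (if G.Adj y z then 1 else 0) := by
          intro y hyB
          have h4 := hy y hyB p hpA
          simp only [Mv, not_forall, not_not] at h4
          obtain ⟨z, hz, hadj, hcz⟩ := h4
          rw [← Finset.sum_filter, ← Finset.card_eq_sum_ones]
          exact Finset.card_pos.2 ⟨z, Finset.mem_filter.2 ⟨mem_cls.2 ⟨hz, hcz⟩, hadj⟩⟩
        have h5 : B.card ≤ ∑ y ∈ B, ∑ z ∈ cls X c p, (if G.Adj y z then 1 else 0) := by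
          calc B.card = ∑ y ∈ B, 1 := by simp
            _ ≤ _ := Finset.sum_le_sum h3
        rw [Finset.sum_comm] at h5
        have h6 : ∀ z ∈ cls X c p, ∑ y ∈ B, (if G.Adj y z then 1 else 0) ≤ r := by
          intro z hz
          rw [mem_cls] at hz
          have e1 : ∑ y ∈ B, (if G.Adj y z then 1 else 0) = (nb G B z).card := by
            rw [← Finset.sum_filter, ← Finset.card_eq_sum_ones]
            congr 1
            ext y
            simp [nb, G.adj_comm]
          rw [e1]
          exact (Finset.card_le_card (nb_mono G hBX z)).trans (hdeg z hz.1)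
        have h7 : ∑ z ∈ cls X c p, ∑ y ∈ B, (if G.Adj y z then 1 else 0)
            ≤ (cls X c p).card * r := by
          simpa using Finset.sum_le_card_nsmul (cls X c p) _ r h6
        have h8 := hszA p hpA
        simp only [if_true] at h8
        have h9 := hn p hp
        have h10 : (cls X c p).card * r ≤ s * r := Nat.mul_le_mul_right _ (by omega)
        rw [hqr] at hB
        have : r * s = s * r := mul_comm _ _
        omega
      obtain ⟨U, hU, T, hTne, hTA, hUT, hpT, hterm, hx⟩ := exists_T hp (by rw [← hAdef]; exact h2)
      rw [← hAdef] at hU hTA hterm hx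
      have hTs : ∀ W ∈ T, (cls X c W).card ≤ s := by
        intro W hW
        have h1 := hszA W (hTA hW)
        have h3 : W ≠ p := by rintro rfl; exact hpT hW
        simp only [h3, if_false] at h1
        have := hn W (hAI (hTA hW))
        omega
      -- the induction hypothesis applied to B minus a vertex
      have hIH : ∀ y ∈ B, Col G (B.erase y) (I \ A) n := by
        intro y hyB
        obtain ⟨w, hw, hadj, -⟩ : ∃ w ∈ X, G.Adj y w ∧ c w = p := by
          have h4 := hy y hyB p hpA
          simp only [Mv, not_forall, not_not] at h4
          obtain ⟨z, hz, hadj, hcz⟩ := h4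
          exact ⟨z, hz, hadj, hcz⟩
        refine ih (B.erase y) (I \ A) (q - 1) ?_ ?_ ?_ ?_ ?_
        · exact ned_lt G ((Finset.erase_subset _ _).trans hBX) (hBX hyB)
            (Finset.notMem_erase _ _) hw hadj
        · intro v hv
          exact (Finset.card_le_card (nb_mono G (Finset.erase_subset _ _) v)).trans
            (hdB v (Finset.mem_of_mem_erase hv))
        · rw [Finset.card_erase_of_mem hyB, Nat.sub_add_cancel hq1]
          omega
        · intro i hi
          exact hn i (Finset.mem_sdiff.1 hi).1
        · rw [Finset.card_erase_of_mem hyB]
          omega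
      by_cases hcase : ∃ z ∈ X, c z ∈ T ∧ (∃ y ∈ B, Solo G X c z y) ∧
          ∃ j ∈ A, j ≠ c z ∧ Mv G X c z j
      · -- Case 1
        obtain ⟨z, hz, hzT, ⟨y, hyB, hsolo⟩, j, hj, hjz, hm⟩ := hcase
        have hyX := hBX hyB
        have hycA : c y ∉ A := (mem_out.1 hyB).2
        have hre := hterm (c z) hzT j hj hjz
        obtain ⟨c1, hG1, hch, hs1⟩ := shift hG hp _ j hre le_rfl
        have hReA : ∀ i, Re G X I c p {c z} i → i ∈ A := by
          intro i hi
          rw [hAdef, mem_acc hp]
          exact hi.mono (Set.empty_subset _)
        have hc1z : c1 z = c z := by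
          by_contra hne
          obtain ⟨-, h4, -⟩ := hch z hne
          exact h4.nmem rfl
        have hm1 : Mv G X c1 z j := by
          intro w hw hadj hcw
          by_cases hwc : c1 w = c w
          · exact hm w hw hadj (hwc ▸ hcw)
          · obtain ⟨-, -, -, h4, h5⟩ := hch w hwc
            rw [hcw] at h4
            omega
        have hG2 := hG1.update (hAI hj) hm1
        set c2 := Function.update c1 z j with hc2
        have hyz : y ≠ z := by
          rintro rfl
          exact hycA (hTA hzT)
        have hc2y : c2 y = c y := by
          rw [hc2, Function.update_of_ne hyz]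
          by_contra hne
          obtain ⟨-, h4, -⟩ := hch y hne
          exact hycA (hReA _ h4)
        have hm2 : Mv G X c2 y (c z) := by
          intro w hw hadj hcw
          by_cases hwz : w = z
          · subst hwz
            rw [hc2, Function.update_self] at hcw
            exact hjz hcw
          · rw [hc2, Function.update_of_ne hwz] at hcw
            by_cases hwc : c1 w = c w
            · exact hwz (hsolo.2 w hw hadj (hwc ▸ hcw))
            · obtain ⟨-, -, h4, -⟩ := hch w hwc
              exact h4.nmem hcw
        have hG3 := hG2.update (hAI (hTA hzT)) hm2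
        set c3 := Function.update c2 y (c z) with hc3
        have hc3A : ∀ v ∈ X, v ∉ B.erase y → c3 v ∈ A := by
          intro v hv hvS
          by_cases hvy : v = y
          · subst hvy; rw [hc3, Function.update_self]; exact hTA hzT
          · rw [hc3, Function.update_of_ne hvy]
            have hvB : v ∉ B := fun h => hvS (Finset.mem_erase.2 ⟨hvy, h⟩)
            have hcv : c v ∈ A := by
              by_contra h
              exact hvB (mem_out.2 ⟨hv, h⟩)
            by_cases hvz : v = z
            · subst hvz; rw [hc2, Function.update_self]; exact hj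
            · rw [hc2, Function.update_of_ne hvz]
              by_cases hvc : c1 v = c v
              · rw [hvc]; exact hcv
              · obtain ⟨-, -, h4, -⟩ := hch v hvc
                exact hReA _ h4
        have hc3B : ∀ v ∈ B.erase y, c3 v ∉ A := by
          intro v hv
          have hv' := Finset.mem_erase.1 hv
          have hcv : c v ∉ A := (mem_out.1 hv'.2).2
          rw [hc3, Function.update_of_ne hv'.1]
          have hvz : v ≠ z := by rintro rfl; exact hcv (hTA hzT)
          rw [hc2, Function.update_of_ne hvz]
          by_cases hvc : c1 v = c v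
          · rw [hvc]; exact hcv
          · obtain ⟨-, h4, -⟩ := hch v hvc
            exact absurd (hReA _ h4) hcv
        obtain ⟨g, hGg, hsg⟩ := hIH y hyB
        have hgA : ∀ v ∈ B.erase y, g v ∉ A := fun v hv => (Finset.mem_sdiff.1 (hGg.1 v hv)).2
        refine ⟨fun v => if v ∈ B.erase y then g v else c3 v, ⟨?_, ?_⟩, ?_⟩
        · intro v hv
          by_cases hvS : v ∈ B.erase y
          · simp only [hvS, if_true]; exact (Finset.mem_sdiff.1 (hGg.1 v hvS)).1
          · simp only [hvS, if_false]; exact hG3.1 v hv
        · intro v hv w hw hadj
          by_cases hvS : v ∈ B.erase y <;> by_cases hwS : w ∈ B.erase y <;>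
            simp only [hvS, hwS, if_true, if_false]
          · exact hGg.2 v hvS w hwS hadj
          · intro heq; exact hgA v hvS (heq ▸ hc3A w hw hwS)
          · intro heq; exact hgA w hwS (heq ▸ hc3A v hv hvS)
          · exact hG3.2 v hv w hw hadj
        · intro k hk
          by_cases hkA : k ∈ A
          · have e1 : cls X (fun v => if v ∈ B.erase y then g v else c3 v) k = cls X c3 k := by
              ext v
              simp only [mem_cls]
              by_cases hvS : v ∈ B.erase y
              · simp only [hvS, if_true]
                constructor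
                · rintro ⟨_, h5⟩; exact absurd (h5 ▸ hkA) (hgA v hvS)
                · rintro ⟨_, h5⟩; exact absurd (h5 ▸ hkA) (hc3B v hvS)
              · simp only [hvS, if_false]
            rw [e1]
            have e2 := card_cls_update X c2 y hyX (c z) k
            have e3 := card_cls_update X c1 z hz j k
            have e4 := hs1 k
            have e5 := hszA k hkA
            rw [hc2y] at e2
            have e6 : k ≠ c y := by rintro rfl; exact hycA hkA
            rw [hc1z] at e3
            rw [← hc2] at e3
            rw [← hc3] at e2
            simp only [e6, if_false] at e2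
            omega
          · have e1 : cls X (fun v => if v ∈ B.erase y then g v else c3 v) k
                = cls (B.erase y) g k := by
              ext v
              simp only [mem_cls]
              by_cases hvS : v ∈ B.erase y
              · simp only [hvS, if_true]
                exact ⟨fun h => ⟨trivial, h.2⟩,
                  fun h => ⟨hBX (Finset.mem_of_mem_erase hvS), h.2⟩⟩
              · simp only [hvS, if_false]
                constructor
                · rintro ⟨h4, h5⟩; exact absurd (hc3A v h4 hvS) (h5 ▸ hkA)
                · rintro ⟨h4, _⟩; exact h4.elim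
            rw [e1]
            exact hsg k (Finset.mem_sdiff.2 ⟨hk, hkA⟩)
      · -- Case 2
        push Not at hcase
        have hqT : q + 1 ≤ T.card := by
          obtain ⟨W, hW⟩ := hTne
          refine many_terminal hdeg hq hU hTA hUT hW (hTs W hW) hB hy
            (fun j hj hjU hjT => hx W hW j hj hjU hjT) ?_
          intro z hz hzW hsol j hj hjW
          exact hcase z hz (by rw [hzW]; exact hW) hsol j hj (by rw [hzW]; exact hjW)
        obtain ⟨z, hz, hzT, y1, hy1B, y2, hy2B, hs1, hs2, hy12, hnadj⟩ :=
          exists_pair hdeg hq hTA hqT hTs hB hy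
        have hmv : ∀ j ∈ A, j ≠ c z → ¬ Mv G X c z j := hcase z hz hzT ⟨y1, hy1B, hs1⟩
        have hzA : c z ∈ A := hTA hzT
        have hzB : z ∉ B := fun h => (mem_out.1 h).2 hzA
        have hy1X := hBX hy1B
        have hy1A : c y1 ∉ A := (mem_out.1 hy1B).2
        have hy1z : y1 ≠ z := by rintro rfl; exact hy1A hzA
        obtain ⟨g, hGg, hsg⟩ := hIH y1 hy1B
        set S := B.erase y1 with hS
        have hzS : z ∉ S := fun h => hzB (Finset.mem_of_mem_erase h)
        have hy1S : y1 ∉ S := Finset.notMem_erase _ _
        have hSX : S ⊆ X := (Finset.erase_subset _ _).trans hBX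
        have hgA : ∀ v ∈ S, g v ∉ A := fun v hv => (Finset.mem_sdiff.1 (hGg.1 v hv)).2
        have hSA : ∀ v ∈ S, c v ∉ A := fun v hv =>
          (mem_out.1 (Finset.mem_of_mem_erase hv)).2
        have hXS : ∀ v ∈ X, v ∉ S → v ≠ y1 → c v ∈ A := by
          intro v hv hvS hvy
          by_contra h
          exact hvS (Finset.mem_erase.2 ⟨hvy, mem_out.2 ⟨hv, h⟩⟩)
        -- a colour for z
        obtain ⟨k, hkI, hkA, hk⟩ : ∃ k, k ∈ I ∧ k ∉ A ∧ ∀ w ∈ S, G.Adj z w → g w ≠ k := by
          have h1 := deg_bound (G := G) (X := X) (c := c) (A := A) (C := A.erase (c z)) (y := z)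
            (Finset.erase_subset _ _)
            (fun j hj => hmv j (Finset.mem_of_mem_erase hj) (Finset.ne_of_mem_erase hj))
          rw [Finset.card_erase_of_mem hzA, ← hBdef] at h1
          have h3 := hdeg z hz
          have h4 : 1 ≤ A.card := Finset.card_pos.2 ⟨_, hzA⟩
          have h5 : (nb G B z).card ≤ q := by omega
          have h6 : nb G S z ⊆ (nb G B z).erase y1 := by
            intro w hw
            rw [mem_nb, hS, Finset.mem_erase] at hw
            rw [Finset.mem_erase, mem_nb]
            exact ⟨hw.1.1, hw.1.2, hw.2⟩
          have h7 : y1 ∈ nb G B z := mem_nb.2 ⟨hy1B, hs1.1.symm⟩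
          have h8 := Finset.card_le_card h6
          rw [Finset.card_erase_of_mem h7] at h8
          have h9 : 0 < (nb G B z).card := Finset.card_pos.2 ⟨_, h7⟩
          have h10 : ((nb G S z).image g).card < (I \ A).card := by
            have h11 := Finset.card_image_le (s := nb G S z) (f := g)
            rw [Finset.card_sdiff_of_subset hAI]
            omega
          obtain ⟨k, hk1, hk2⟩ := Finset.exists_mem_notMem_of_card_lt_card h10
          rw [Finset.mem_sdiff] at hk1
          refine ⟨k, hk1.1, hk1.2, fun w hw hadj hgw => hk2 ?_⟩
          exact Finset.mem_image.2 ⟨w, mem_nb.2 ⟨hw, hadj⟩, hgw⟩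
        -- the new colouring
        let c' : V → ι := fun v => if v ∈ S then g v else if v = z then k else
          if v = y1 then c z else c v
        have c'S : ∀ v ∈ S, c' v = g v := fun v hv => by simp only [c', hv, if_true]
        have c'z : c' z = k := by simp only [c', hzS, if_false, if_true]
        have c'y : c' y1 = c z := by simp only [c', hy1S, if_false, hy1z, if_true]
        have c'o : ∀ v, v ∉ S → v ≠ z → v ≠ y1 → c' v = c v := fun v h1 h2 h3 => by
          simp only [c', h1, h2, h3, if_false]
        -- membership analysis
        have hA' : ∀ w ∈ X, c' w ∈ A → w ∉ S ∧ w ≠ z := by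
          intro w hw hcw
          refine ⟨fun h => hgA w h (c'S w h ▸ hcw), ?_⟩
          rintro rfl
          exact hkA (c'z ▸ hcw)
        have hGc' : Good G X I c' := by
          refine ⟨?_, ?_⟩
          · intro v hv
            by_cases h1 : v ∈ S
            · rw [c'S v h1]; exact (Finset.mem_sdiff.1 (hGg.1 v h1)).1
            · by_cases h3 : v = z
              · rw [h3, c'z]; exact hkI
              · by_cases h4 : v = y1
                · rw [h4, c'y]; exact hG.1 z hz
                · rw [c'o v h1 h3 h4]; exact hG.1 v hv
          · intro v hv w hw hadj heq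
            by_cases hvA : c' v ∈ A
            · have hwA : c' w ∈ A := heq ▸ hvA
              obtain ⟨hv1, hv2⟩ := hA' v hv hvA
              obtain ⟨hw1, hw2⟩ := hA' w hw hwA
              by_cases hvy : v = y1
              · subst hvy
                have hwy : w ≠ v := hadj.ne'
                rw [c'y, c'o w hw1 hw2 hwy] at heq
                exact hw2 (hs1.2 w hw hadj heq.symm)
              · by_cases hwy : w = y1
                · subst hwy
                  rw [c'y, c'o v hv1 hv2 hvy] at heq
                  exact hv2 (hs1.2 v hv hadj.symm heq)
                · rw [c'o v hv1 hv2 hvy, c'o w hw1 hw2 hwy] at heq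
                  exact hG.2 v hv w hw hadj heq
            · have hwA : c' w ∉ A := heq ▸ hvA
              have hcl : ∀ x ∈ X, c' x ∉ A → x ∈ S ∨ x = z := by
                intro x hx hxA
                by_contra hcon
                push Not at hcon
                by_cases hxy : x = y1
                · rw [hxy, c'y] at hxA; exact hxA hzA
                · rw [c'o x hcon.1 hcon.2 hxy] at hxA
                  exact hxA (hXS x hx hcon.1 hxy)
              rcases hcl v hv hvA with hvS | rfl
              · rcases hcl w hw hwA with hwS | rfl
                · rw [c'S v hvS, c'S w hwS] at heq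
                  exact hGg.2 v hvS w hwS hadj heq
                · rw [c'S v hvS, c'z] at heq
                  exact hk v hvS hadj.symm heq
              · rcases hcl w hw hwA with hwS | rfl
                · rw [c'S w hwS, c'z] at heq
                  exact hk w hwS hadj heq.symm
                · exact hadj.ne rfl
        have hsz' : ∀ i ∈ I, (cls X c' i).card + (if i = p then 1 else 0)
            = n i + (if i = k then 1 else 0) := by
          intro i hi
          by_cases hiA : i ∈ A
          · have hik : i ≠ k := by rintro rfl; exact hkA hiA
            have e1 : cls X c' i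
                = cls X (Function.update (Function.update c y1 (c z)) z k) i := by
              ext v
              simp only [mem_cls]
              constructor
              · rintro ⟨hv, hcv⟩
                obtain ⟨h1, h3⟩ := hA' v hv (hcv ▸ hiA)
                refine ⟨hv, ?_⟩
                rw [Function.update_of_ne h3]
                by_cases hvy : v = y1
                · subst hvy; rw [Function.update_self, ← c'y]; exact hcv
                · rw [Function.update_of_ne hvy, ← c'o v h1 h3 hvy]; exact hcv
              · rintro ⟨hv, hcv⟩
                refine ⟨hv, ?_⟩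
                by_cases hvz : v = z
                · subst hvz
                  rw [Function.update_self] at hcv
                  exact absurd hcv.symm hik
                · rw [Function.update_of_ne hvz] at hcv
                  by_cases hvy : v = y1
                  · subst hvy
                    rw [Function.update_self] at hcv
                    rw [c'y]; exact hcv
                  · rw [Function.update_of_ne hvy] at hcv
                    have hvS : v ∉ S := fun h => hSA v h (hcv ▸ hiA)
                    rw [c'o v hvS hvz hvy]; exact hcv
            rw [e1]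
            have e2 := card_cls_update X (Function.update c y1 (c z)) z hz k i
            have e3 := card_cls_update X c y1 hy1X (c z) i
            rw [Function.update_of_ne hy1z.symm] at e2
            have e4 := hszA i hiA
            have e5 : i ≠ c y1 := by rintro rfl; exact hy1A hiA
            simp only [hik, if_false] at e2 ⊢
            simp only [e5, if_false] at e3
            omega
          · have hip : i ≠ p := by rintro rfl; exact hiA hpA
            have hng := hsg i (Finset.mem_sdiff.2 ⟨hi, hiA⟩)
            simp only [hip, if_false, add_zero]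
            by_cases hik : i = k
            · subst hik
              have e1 : cls X c' i = insert z (cls S g i) := by
                ext v
                rw [Finset.mem_insert, mem_cls, mem_cls]
                constructor
                · rintro ⟨hv, hcv⟩
                  by_cases hvz : v = z
                  · exact Or.inl hvz
                  · right
                    by_cases hvS : v ∈ S
                    · exact ⟨hvS, by rw [← c'S v hvS]; exact hcv⟩
                    · exfalso
                      by_cases hvy : v = y1
                      · rw [hvy, c'y] at hcv; exact hiA (hcv ▸ hzA)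
                      · rw [c'o v hvS hvz hvy] at hcv
                        exact hiA (hcv ▸ hXS v hv hvS hvy)
                · rintro (rfl | ⟨hvS, hgv⟩)
                  · exact ⟨hz, c'z⟩
                  · exact ⟨hSX hvS, by rw [c'S v hvS]; exact hgv⟩
              rw [e1, Finset.card_insert_of_notMem (fun h => hzS (mem_cls.1 h).1), hng]
              simp
            · have e1 : cls X c' i = cls S g i := by
                ext v
                rw [mem_cls, mem_cls]
                constructor
                · rintro ⟨hv, hcv⟩
                  by_cases hvz : v = z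
                  · subst hvz; rw [c'z] at hcv; exact absurd hcv.symm hik
                  · by_cases hvS : v ∈ S
                    · exact ⟨hvS, by rw [← c'S v hvS]; exact hcv⟩
                    · exfalso
                      by_cases hvy : v = y1
                      · rw [hvy, c'y] at hcv; exact hiA (hcv ▸ hzA)
                      · rw [c'o v hvS hvz hvy] at hcv
                        exact hiA (hcv ▸ hXS v hv hvS hvy)
                · rintro ⟨hvS, hgv⟩
                  exact ⟨hSX hvS, by rw [c'S v hvS]; exact hgv⟩
              rw [e1, hng]
              simp [hik]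
        -- accessibility in the new colouring
        have hkp : p ≠ k := by rintro rfl; exact hkA hpA
        have hMv' : ∀ v j, j ∈ A → j ≠ c z → Mv G X c v j → Mv G X c' v j := by
          intro v j hj hjz hm w hw hadj hcw
          obtain ⟨h1, h3⟩ := hA' w hw (hcw ▸ hj)
          by_cases hwy : w = y1
          · rw [hwy, c'y] at hcw; exact hjz hcw.symm
          · rw [c'o w h1 h3 hwy] at hcw
            exact hm w hw hadj hcw
        have hReA : ∀ i, Re G X I c p {c z} i → i ∈ A := by
          intro i hi
          rw [hAdef, mem_acc hp]
          exact hi.mono (Set.empty_subset _)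
        have hcl1 : ∀ m i, Rc G X I c p {c z} m i → Re G X I c' p ∅ i := by
          intro m i h
          induction h with
          | base h => exact ⟨0, Rc.base (by simp)⟩
          | step hj hi hn' hm ih' =>
            obtain ⟨v, hv, hcv, hmv'⟩ := hm
            rename_i m' i' j'
            have hi'A : i' ∈ A := hReA i' ⟨_, Rc.step hj hi hn' ⟨v, hv, hcv, hmv'⟩⟩
            have hj'A : j' ∈ A := hReA j' ⟨_, hj⟩
            have hj'z : j' ≠ c z := fun h => hj.nmem h
            have hi'z : i' ≠ c z := fun h => hn' h
            have hvS : v ∉ S := fun h => hSA v h (hcv ▸ hi'A)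
            have hvz : v ≠ z := by rintro rfl; exact hi'z hcv.symm
            have hvy : v ≠ y1 := by rintro rfl; exact hy1A (hcv ▸ hi'A)
            exact ih'.step hi (by simp) ⟨v, hv, by rw [c'o v hvS hvz hvy]; exact hcv,
              hMv' v j' hj'A hj'z hmv'⟩
        have hcl2 : Re G X I c' p ∅ (c z) := by
          have hzr : Re G X I c p ∅ (c z) := (mem_acc hp).1 hzA
          have hzp : c z ≠ p := by intro h; exact hpT (h ▸ hzT)
          obtain ⟨j, hj, hjlt, v, hv, hcv, hmv'⟩ := rk_step hzr hzp
          have hjA : j ∈ A := (mem_acc hp).2 hj
          have hjz : j ≠ c z := by rintro rfl; exact lt_irrefl _ hjlt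
          have hvz : v ≠ z := by
            rintro rfl
            exact hmv j hjA hjz hmv'
          have hvS : v ∉ S := fun h => hSA v h (hcv ▸ hzA)
          have hvy : v ≠ y1 := by rintro rfl; exact hy1A (hcv ▸ hzA)
          obtain ⟨m, hm⟩ := hterm (c z) hzT j hjA hjz
          exact (hcl1 m j hm).step (hG.1 z hz) (by simp)
            ⟨v, hv, by rw [c'o v hvS hvz hvy]; exact hcv, hMv' v j hjA hjz hmv'⟩
        have hy2S : y2 ∈ S := Finset.mem_erase.2 ⟨hy12.symm, hy2B⟩
        have hcl3 : Re G X I c' p ∅ (g y2) := by
          refine hcl2.step (Finset.mem_sdiff.1 (hGg.1 y2 hy2S)).1 (by simp)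
            ⟨y2, hBX hy2B, c'S y2 hy2S, ?_⟩
          intro w hw hadj hcw
          obtain ⟨h1, h3⟩ := hA' w hw (hcw ▸ hzA)
          by_cases hwy : w = y1
          · subst hwy; exact hnadj hadj.symm
          · rw [c'o w h1 h3 hwy] at hcw
            exact h3 (hs2.2 w hw hadj hcw)
        have hsub : insert (g y2) A ⊆ acc G X I c' p := by
          intro i hi
          rw [Finset.mem_insert] at hi
          rw [mem_acc hp]
          rcases hi with rfl | hi
          · exact hcl3
          · by_cases hiz : i = c z
            · rw [hiz]; exact hcl2
            · obtain ⟨m, hm⟩ := hterm (c z) hzT i hi hiz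
              exact hcl1 m i hm
        have hcard := Finset.card_le_card hsub
        rw [Finset.card_insert_of_notMem (hgA y2 hy2S)] at hcard
        exact ihM c' p k hp hkI hkp hGc' hsz' (by omega)

end Pool.Agent.R606.HS
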