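import Pool.Agent.R606.HS.Count

/-!
Helper file (helper606) for MP_2870db_co: a solo vertex with two nonadjacent solo neighbours.
-/

namespace Pool.Agent.R606.HS

open Finset Classical

variable {V : Type*} {ι : Type*}

theorem exists_pair {G : SimpleGraph V} {X : Finset V} {c : V → ι} {A T : Finset ι}
    {r s q : ℕ} (hdeg : ∀ v ∈ X, (nb G X v).card ≤ r) (hq : q + A.card = r + 1)
    (hTA : T ⊆ A) (hqT : q + 1 ≤ T.card)
    (hTs : ∀ W ∈ T, (cls X c W).card ≤ s) (hB : q * s + 1 ≤ (out X c A).card)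
    (hy : ∀ y ∈ out X c A, ∀ j ∈ A, ¬ Mv G X c y j) :
    ∃ z ∈ X, c z ∈ T ∧ ∃ y1 ∈ out X c A, ∃ y2 ∈ out X c A, Solo G X c z y1 ∧ Solo G X c z y2 ∧
      y1 ≠ y2 ∧ ¬ G.Adj y1 y2 := by
  by_contra hcon
  push Not at hcon
  set B := out X c A with hBdef
  let Z := X.filter (fun z => c z ∈ T)
  let Sz : V → Finset V := fun z => B.filter (fun y => Solo G X c z y)
  let Sy : V → Finset V := fun y => Z.filter (fun z => Solo G X c z y)
  have memZ : ∀ z, z ∈ Z ↔ z ∈ X ∧ c z ∈ T := fun z => by simp [Z]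
  have memSz : ∀ z y, y ∈ Sz z ↔ y ∈ B ∧ Solo G X c z y := fun z y => by simp [Sz]
  have memSy : ∀ y z, z ∈ Sy y ↔ z ∈ Z ∧ Solo G X c z y := fun z y => by simp [Sy]
  -- number of solo neighbours in the terminal classes
  have hSy : ∀ y ∈ B, T.card + 1 + (nb G B y).card ≤ q + (Sy y).card := by
    intro y hyB
    have hyX : y ∈ X := (mem_out.1 hyB).1
    have h1 := deg_split G X c A y
    have h2 := hdeg y hyX
    have h3 : ∑ j ∈ A, (nc G X c y j).card
        = ∑ j ∈ A \ T, (nc G X c y j).card + ∑ j ∈ T, (nc G X c y j).card :=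
      (Finset.sum_sdiff hTA).symm
    have h4 : (A \ T).card ≤ ∑ j ∈ A \ T, (nc G X c y j).card := by
      rw [Finset.card_eq_sum_ones]
      exact Finset.sum_le_sum (fun j hj => nc_pos (hy y hyB j (Finset.mem_sdiff.1 hj).1))
    have h5 : ∀ j ∈ T, 2 ≤ (nc G X c y j).card + ((Sy y).filter (fun z => c z = j)).card := by
      intro j hj
      have hp := nc_pos (hy y hyB j (hTA hj))
      by_cases h : 2 ≤ (nc G X c y j).card
      · omega
      · have h' : (nc G X c y j).card = 1 := by omega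
        obtain ⟨z, hz⟩ := Finset.card_eq_one.1 h'
        have hz1 : z ∈ nc G X c y j := by rw [hz]; exact Finset.mem_singleton_self _
        rw [mem_nc] at hz1
        have : z ∈ (Sy y).filter (fun z => c z = j) := by
          rw [Finset.mem_filter, memSy, memZ]
          refine ⟨⟨⟨hz1.1, hz1.2.2 ▸ hj⟩, hz1.2.1, fun w hw hadj hcw => ?_⟩, hz1.2.2⟩
          have hw' : w ∈ nc G X c y j := mem_nc.2 ⟨hw, hadj, hcw.trans hz1.2.2⟩
          rw [hz] at hw'
          exact Finset.mem_singleton.1 hw'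
        have : 0 < ((Sy y).filter (fun z => c z = j)).card := Finset.card_pos.2 ⟨z, this⟩
        omega
    have h6 : ∑ j ∈ T, ((Sy y).filter (fun z => c z = j)).card = (Sy y).card := by
      symm
      apply Finset.card_eq_sum_card_fiberwise
      intro z hz
      have := (memSy y z).1 hz
      exact ((memZ z).1 this.1).2
    have h7 : 2 * T.card ≤ ∑ j ∈ T, (nc G X c y j).card + (Sy y).card := by
      rw [← h6, ← Finset.sum_add_distrib]
      calc 2 * T.card = ∑ j ∈ T, 2 := by simp [mul_comm]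
        _ ≤ _ := Finset.sum_le_sum h5
    have h8 : (A \ T).card + T.card = A.card := Finset.card_sdiff_add_card_eq_card hTA
    rw [← hBdef] at h1
    omega
  -- the solo neighbours of z form a clique
  have hcl : ∀ y ∈ B, ∀ z ∈ Sy y, (Sz z).card ≤ (nb G B y).card + 1 := by
    intro y hyB z hz
    rw [memSy, memZ] at hz
    have hsub : Sz z ⊆ insert y (nb G B y) := by
      intro y' hy'
      rw [memSz] at hy'
      rw [Finset.mem_insert, mem_nb]
      by_cases e : y' = y
      · exact Or.inl e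
      · exact Or.inr ⟨hy'.1, hcon z hz.1.1 hz.1.2 y hyB y' hy'.1 hz.2 hy'.2 (Ne.symm e)⟩
    exact (Finset.card_le_card hsub).trans (Finset.card_insert_le _ _)
  have hdB : ∀ y ∈ B, (nb G B y).card + 1 ≤ q := by
    intro y hyB
    have h1 := deg_bound (G := G) (X := X) (c := c) (A := A) (C := A) (y := y)
      (Finset.Subset.refl _) (hy y hyB)
    have h2 := hdeg y (mem_out.1 hyB).1
    rw [← hBdef] at h1
    omega
  have hBne : B.Nonempty := by
    rw [← Finset.card_pos]; omega
  have hq1 : 1 ≤ q := by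
    obtain ⟨y, hyB⟩ := hBne
    have := hdB y hyB
    omega
  -- weights
  have hlow : ∀ y ∈ B, (T.card : ℚ) / q ≤ ∑ z ∈ Sy y, (1 : ℚ) / (Sz z).card := by
    intro y hyB
    set D : ℕ := (nb G B y).card + 1 with hD
    have hDq : D ≤ q := hdB y hyB
    have hSyc := hSy y hyB
    have e1 : ((Sy y).card : ℚ) * (1 / D) ≤ ∑ z ∈ Sy y, (1 : ℚ) / (Sz z).card := by
      rw [← nsmul_eq_mul]
      apply Finset.card_nsmul_le_sum
      intro z hz
      have h1 : (Sz z).card ≤ D := hcl y hyB z hz
      have h2 : 0 < (Sz z).card := by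
        rw [Finset.card_pos]
        exact ⟨y, (memSz z y).2 ⟨hyB, ((memSy y z).1 hz).2⟩⟩
      apply one_div_le_one_div_of_le
      · exact_mod_cast h2
      · exact_mod_cast h1
    refine le_trans ?_ e1
    have hD0 : (0 : ℚ) < D := by
      have : 0 < D := by omega
      exact_mod_cast this
    have hq0 : (0 : ℚ) < q := by exact_mod_cast hq1
    have hS : (T.card : ℚ) - q + D ≤ (Sy y).card := by
      have : (T.card + D : ℕ) ≤ (q + (Sy y).card : ℕ) := by omega
      have : ((T.card + D : ℕ) : ℚ) ≤ ((q + (Sy y).card : ℕ) : ℚ) := by exact_mod_cast this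
      push_cast at this
      linarith
    rw [mul_one_div, div_le_div_iff₀ hq0 hD0]
    have hDq' : (D : ℚ) ≤ q := by exact_mod_cast hDq
    have htq : (q : ℚ) ≤ T.card := by
      have : q ≤ T.card := by omega
      exact_mod_cast this
    nlinarith [mul_nonneg (sub_nonneg.2 htq) (sub_nonneg.2 hDq'),
      mul_le_mul_of_nonneg_right hS hq0.le]
  have hsum1 : (B.card : ℚ) * ((T.card : ℚ) / q)
      ≤ ∑ y ∈ B, ∑ z ∈ Sy y, (1 : ℚ) / (Sz z).card := by
    rw [← nsmul_eq_mul]
    exact Finset.card_nsmul_le_sum _ _ _ hlow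
  have hswap : ∑ y ∈ B, ∑ z ∈ Sy y, (1 : ℚ) / (Sz z).card
      = ∑ z ∈ Z, ∑ y ∈ Sz z, (1 : ℚ) / (Sz z).card := by
    apply Finset.sum_comm'
    intro y z
    rw [memSy, memSz]
    tauto
  have hZ1 : ∑ z ∈ Z, ∑ y ∈ Sz z, (1 : ℚ) / (Sz z).card ≤ (Z.card : ℚ) := by
    have : ∀ z ∈ Z, ∑ y ∈ Sz z, (1 : ℚ) / (Sz z).card ≤ 1 := by
      intro z _
      rw [Finset.sum_const, nsmul_eq_mul]
      by_cases h0 : ((Sz z).card : ℚ) = 0
      · rw [h0]; norm_num
      · rw [mul_one_div_cancel h0]
    calc _ ≤ ∑ z ∈ Z, (1 : ℚ) := Finset.sum_le_sum this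
      _ = Z.card := by simp
  have hZ2 : Z.card ≤ T.card * s := by
    have e1 : Z.card = ∑ j ∈ T, (Z.filter (fun z => c z = j)).card := by
      apply Finset.card_eq_sum_card_fiberwise
      intro z hz
      exact ((memZ z).1 hz).2
    rw [e1]
    have e2 : ∀ j ∈ T, (Z.filter (fun z => c z = j)).card ≤ s := by
      intro j hj
      refine (Finset.card_le_card ?_).trans (hTs j hj)
      intro z hz
      rw [Finset.mem_filter, memZ] at hz
      exact mem_cls.2 ⟨hz.1.1, hz.2⟩
    simpa using Finset.sum_le_card_nsmul T _ s e2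
  have hfin : (B.card : ℚ) * ((T.card : ℚ) / q) ≤ (T.card : ℚ) * s := by
    have : (Z.card : ℚ) ≤ (T.card * s : ℕ) := by exact_mod_cast hZ2
    push_cast at this
    rw [hswap] at hsum1
    linarith
  have hq0 : (0 : ℚ) < q := by exact_mod_cast hq1
  have hT0 : (0 : ℚ) < T.card := by
    have : 0 < T.card := by omega
    exact_mod_cast this
  have hB' : (B.card : ℚ) ≤ q * s := by
    rw [mul_div_assoc', div_le_iff₀ hq0] at hfin
    have : (T.card : ℚ) * B.card ≤ T.card * (q * s) := by nlinarith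
    exact le_of_mul_le_mul_left this hT0
  have : B.card ≤ q * s := by exact_mod_cast hB'
  omega

end Pool.Agent.R606.HS
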